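import Pool.Agent.W798.KF.Stm

/-!
# The linear inequalities
-/

set_option autoImplicit false

namespace Pool.Agent.W576.KF

open Pool.Agent.W798.SP Pool.Agent.W798.KF

theorem eD (x y : ℕ → ℝ) (n c : ℝ)
    (h : ∀ i i' : ℕ, 3 * n + x i + y i' ≤ c + 2 * x (i + 1) + 2 * y (i' + 1)) (i : ℕ) :
    (2 : ℝ) ^ i * (3 * n - x (i + 1) - y (i + 1)) ≤ (3 * n - x 1 - y 1) + (2 ^ i - 1) * c := by
  induction i with
  | zero => simp
  | succ i ih =>
    have h1 := h (i + 1) (i + 1)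
    have h2 : (2 : ℝ) ^ i * (2 * (3 * n - x (i + 1 + 1) - y (i + 1 + 1))) ≤
        (2 : ℝ) ^ i * (3 * n - x (i + 1) - y (i + 1) + c) :=
      mul_le_mul_of_nonneg_left (by linarith) (by positivity)
    rw [pow_succ]
    linarith

theorem dD (x y : ℕ → ℝ) (n c : ℝ)
    (h : ∀ i i' : ℕ, 3 * n + x i + y i' ≤ c + 2 * x (i + 1) + 2 * y (i' + 1)) (i : ℕ) :
    (2 : ℝ) ^ i * (3 * n - x (i + 2) - y (i + 1)) ≤ (3 * n - x 2 - y 1) + (2 ^ i - 1) * c := by
  induction i with
  | zero => simp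
  | succ i ih =>
    have h1 := h (i + 2) (i + 1)
    have h2 : (2 : ℝ) ^ i * (2 * (3 * n - x (i + 1 + 2) - y (i + 1 + 1))) ≤
        (2 : ℝ) ^ i * (3 * n - x (i + 2) - y (i + 1) + c) := by
      apply mul_le_mul_of_nonneg_left _ (by positivity)
      have e1 : i + 1 + 2 = i + 2 + 1 := by omega
      rw [e1]
      linarith
    rw [pow_succ]
    linarith

theorem rD (x y : ℕ → ℝ) (n c : ℝ) (hc : 0 ≤ c)
    (h : ∀ i i' : ℕ, 3 * n + x i + y i' ≤ c + 2 * x (i + 1) + 2 * y (i' + 1)) (k : ℕ) :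
    (2 : ℝ) ^ (k + 1) * x 2 + 2 ^ (k + 1) * (2 ^ (k + 1) - 2) *
      ((3 * n - x (k + 2) - y (k + 2)) - c) - (2 ^ (k + 1) - 2) * (3 * n - x 2 - y 1) ≤
      2 ^ (k + 1) * x (k + 2) := by
  induction k with
  | zero => norm_num
  | succ k ih =>
    obtain ⟨T, hT⟩ : ∃ T : ℝ, T = 2 ^ (k + 1) := ⟨_, rfl⟩
    have hT1 : 1 ≤ T := by
      rw [hT]
      exact one_le_pow₀ (by norm_num)
    have h1 := h (k + 2) (k + 2)
    have h2 := dD x y n c h (k + 1)
    have e1 : (2 : ℝ) ^ (k + 1 + 1) = 2 * T := by rw [hT, pow_succ]; ring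
    rw [← hT] at ih h2
    rw [e1]
    have e2 : k + 1 + 2 = k + 3 := by omega
    have e3 : k + 1 + 1 = k + 2 := by omega
    have e4 : k + 2 + 1 = k + 3 := by omega
    rw [e4] at h1
    rw [e2, e3] at h2
    rw [e2]
    have h3 : (2 * T * (T - 1)) * (2 * (3 * n - x (k + 3) - y (k + 3))) ≤
        (2 * T * (T - 1)) * (3 * n - x (k + 2) - y (k + 2) + c) := by
      apply mul_le_mul_of_nonneg_left (by linarith)
      apply mul_nonneg
      · linarith
      · linarith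
    nlinarith [h3, h2, ih, hc]

theorem alg (t m n x1 y1 x2 c E : ℝ) (ht : 2 ≤ t) (hc : 0 ≤ c) (hE : 0 ≤ E)
    (hD : 3 * t * n - 3 * n + x1 + y1 - c * t ≤ 2 * t * m)
    (hR : (2 * t - 2) * x2 + (t - 2) * ((3 * t - 3) * n + y1) - t * (t - 2) * c ≤
      t * (2 * t - 3) * m)
    (h2 : 19 * n + 5 * x1 ≤ E + 9 * y1 + 10 * x2)
    (h3 : 226 * n ≤ E + 103 * x1 + 66 * y1) :
    (5562 * t ^ 2 - 3670 * t + 368) * n ≤
      t * (3708 * t - 2018) * m + (1854 * t ^ 2 + 92 * t) * (c + E) := by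
  have p1 := mul_le_mul_of_nonneg_left hD (show (0 : ℝ) ≤ 1484 * t - 454 by linarith)
  have p3 := mul_le_mul_of_nonneg_left h2 (show (0 : ℝ) ≤ 37 * (2 * t - 2) by linarith)
  have p4 := mul_le_mul_of_nonneg_left h3 (show (0 : ℝ) ≤ 18 * t - 8 by linarith)
  have q1 : 0 ≤ (1286 * t) * c := mul_nonneg (by linarith) hc
  have q2 : 0 ≤ (1854 * t ^ 2 + 82) * E := mul_nonneg (by positivity) hE
  linarith

theorem main : S_LI := by
  intro j
  rcases Nat.eq_zero_or_pos j with hj | hj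
  · subst hj
    refine ⟨1, by norm_num, ?_⟩
    intro x y n c E hc hE h h2 h3
    have e1 : ex 0 = 226 / 169 := by
      unfold ex
      norm_num
    have m1 := le_max_left (x (0 + 1)) (y (0 + 1))
    have m2 := le_max_right (x (0 + 1)) (y (0 + 1))
    rw [Nat.zero_add] at m1 m2 ⊢
    rw [e1]
    linarith
  · obtain ⟨k, rfl⟩ : ∃ k, j = k + 1 := ⟨j - 1, by omega⟩
    obtain ⟨t, ht⟩ : ∃ t : ℝ, t = 2 ^ (k + 1) := ⟨_, rfl⟩
    have ht2 : 2 ≤ t := by
      rw [ht, pow_succ]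
      have : (1 : ℝ) ≤ 2 ^ k := one_le_pow₀ (by norm_num)
      linarith
    have hD0 : 0 < t * (3708 * t - 2018) := mul_pos (by linarith) (by linarith)
    refine ⟨(1854 * t ^ 2 + 92 * t) / (t * (3708 * t - 2018)), by positivity, ?_⟩
    intro x y n c E hc hE h h2 h3
    obtain ⟨m, hm⟩ : ∃ m, m = max (x (k + 1 + 1)) (y (k + 1 + 1)) := ⟨_, rfl⟩
    rw [← hm]
    have m1 : x (k + 2) ≤ m := by rw [hm]; exact le_max_left _ _
    have m2 : y (k + 2) ≤ m := by rw [hm]; exact le_max_right _ _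
    have a1 := eD x y n c h (k + 1)
    have a2 := rD x y n c hc h k
    rw [← ht] at a1 a2
    have e1 : k + 1 + 1 = k + 2 := by omega
    rw [e1] at a1
    have b1 : t * (3 * n - 2 * m) ≤ t * (3 * n - x (k + 2) - y (k + 2)) :=
      mul_le_mul_of_nonneg_left (by linarith) (by linarith)
    have b2 : t * (t - 2) * (3 * n - 2 * m) ≤ t * (t - 2) * (3 * n - x (k + 2) - y (k + 2)) := by
      apply mul_le_mul_of_nonneg_left (by linarith)
      exact mul_nonneg (by linarith) (by linarith)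
    have b3 : t * x (k + 2) ≤ t * m := mul_le_mul_of_nonneg_left m1 (by linarith)
    have key := alg t m n (x 1) (y 1) (x 2) c E ht2 hc hE (by nlinarith [a1, b1])
      (by nlinarith [a2, b2, b3]) h2 h3
    have hex : ex (k + 1) * (t * (3708 * t - 2018)) = 5562 * t ^ 2 - 3670 * t + 368 := by
      unfold ex
      rw [← ht]
      have h5 : (1854 * t - 1009) ≠ 0 := by
        have : 0 < 1854 * t - 1009 := by linarith
        exact this.ne'
      have h6 : t ≠ 0 := by
        have : 0 < t := by linarith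
        exact this.ne'
      rw [show t * (3708 * t - 2018) = (t * (1854 * t - 1009)) * 2 by ring, ← mul_assoc,
        div_mul_cancel₀ _ (mul_ne_zero h6 h5)]
      ring
    have hC : (1854 * t ^ 2 + 92 * t) / (t * (3708 * t - 2018)) * (t * (3708 * t - 2018)) =
        1854 * t ^ 2 + 92 * t := div_mul_cancel₀ _ hD0.ne'
    apply le_of_mul_le_mul_right _ hD0
    have l1 : ex (k + 1) * n * (t * (3708 * t - 2018)) =
        (ex (k + 1) * (t * (3708 * t - 2018))) * n := by ring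
    have l2 : (m + (1854 * t ^ 2 + 92 * t) / (t * (3708 * t - 2018)) * (c + E)) *
        (t * (3708 * t - 2018)) = t * (3708 * t - 2018) * m +
        ((1854 * t ^ 2 + 92 * t) / (t * (3708 * t - 2018)) * (t * (3708 * t - 2018))) * (c + E) := by
      ring
    rw [l1, l2, hex, hC]
    exact key

end Pool.Agent.W576.KF
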